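import Pool.Agent.X35.GV.PencilCurve

/-!
# The Euler products of the members of ALL pencils `y² = f(x) - n q(x)` of elliptic curves to the right of the critical line, for ALL integers `n`
near `± α v_i`, outside a set of `α` of small dimension
-/

set_option autoImplicit false

namespace Pool.Agent.Results.MP_3283e1_nt.EulerProductsOfPencils

open Finset Polynomial

/-- The number `a_p = p + 1 - #E(𝔽_p)` for the cubic curve `E : y² = f(x) - n q(x)` modulo `p` (`f` monic cubic, `q` of degree at most `2`, so that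
there is one point at infinity): `p` minus the number of the affine points. -/
noncomputable def trace (f q : ℤ[X]) (n : ℤ) (p : ℕ) : ℤ :=
  p - Nat.card {P : ZMod p × ZMod p // P.2 ^ 2 = ((f - C n * q).map (Int.castRingHom (ZMod p))).eval P.1}

/-- The Euler product over the primes `y < p ≤ x` of `(1 - a_p p ^ (- s) + p ^ (1 - 2 s))⁻¹`; at `s = 1` the factors are `p / #E(𝔽_p)`. -/
noncomputable def eulerProduct (f q : ℤ[X]) (n : ℤ) (y x : ℕ) (s : ℂ) : ℂ :=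
  ∏ p ∈ (Ioc y x).filter Nat.Prime, (1 - ((trace f q n p : ℂ) * (p : ℂ) ^ (-s) - (p : ℂ) ^ (1 - 2 * s)))⁻¹

/-- Let `0 < η ≤ 1` and `A ≥ 0`. There are `κ > 0` and `C > 0` such that for all reals `v_i ≥ 1` with `∑ v_i ^ (-u) < ∞` for all `u > τ`
(`τ ≥ 0`; for example `v_i = 2 ^ i`, `τ = 0`) and all `θ < 1` there is a set `E` of reals of Hausdorff dimension at most
`(1 - κ + τ) / (1 - θ)` with the following property. For every real `α > 0` outside `E`, ALL monic cubic `f ∈ ℤ[x]` and ALL `q ∈ ℤ[x]`, `q ≠ 0`, of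
degree at most `2`, all `i ≥ i₀(α, f, q)`, ALL integers `n` with `||n| - α v_i| ≤ v_i ^ θ`, ALL integers `x ≥ y` with
`(log |n|) ^ C ≤ y ≤ x ≤ |n| ^ κ` and ALL complex `s` with `1 + η ≤ Re s ≤ 2`, `|Im s| ≤ y ^ A`, the product over the primes `y < p ≤ x` of
`(1 - a_p p ^ (- s) + p ^ (1 - 2 s))⁻¹` for the curve `y² = f(x) - n q(x)` differs from `1` by at most `y ^ (- η / 4)`. -/
theorem result (η A : ℝ) (hη : 0 < η) (hη1 : η ≤ 1) (hA : 0 ≤ A) :
    ∃ κ C : ℝ, 0 < κ ∧ 0 < C ∧ ∀ (v : ℕ → ℝ) (τ θ : ℝ), (∀ i, 1 ≤ v i) → 0 ≤ τ → θ < 1 →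
      (∀ u : ℝ, τ < u → Summable (fun i => v i ^ (-u))) →
      ∃ E : Set ℝ, dimH E ≤ ENNReal.ofReal ((1 - κ + τ) / (1 - θ)) ∧
        ∀ α : ℝ, 0 < α → α ∉ E → ∀ f q : ℤ[X], f.Monic → f.natDegree = 3 → q.natDegree ≤ 2 → q ≠ 0 →
          ∃ i₀ : ℕ, ∀ i : ℕ, i₀ ≤ i → ∀ n : ℤ, |(|(n : ℝ)|) - α * v i| ≤ v i ^ θ →
            ∀ y x : ℕ, Real.log |(n : ℝ)| ^ C ≤ y → y ≤ x → (x : ℝ) ≤ |(n : ℝ)| ^ κ →
              ∀ s : ℂ, 1 + η ≤ s.re → s.re ≤ 2 → |s.im| ≤ (y : ℝ) ^ A →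
                ‖eulerProduct f q n y x s - 1‖ ≤ (y : ℝ) ^ (-(η / 4)) := by
  classical
  obtain ⟨κ, C, hκ, hC, H⟩ := Pool.Agent.X35.GV.ptr_law (η / 2) A (by positivity) hA
  refine ⟨κ, C, hκ, hC, fun v τ θ hv1 hτ hθ hv => ?_⟩
  obtain ⟨E, hE1, hE2⟩ := H v τ θ hv1 hτ hθ hv
  refine ⟨E, hE1, fun α hα hαE f q hf hd hq hq0 => ?_⟩
  have ho : Odd f.natDegree := by rw [hd]; decide
  have hdq : q.natDegree < f.natDegree := by omega
  obtain ⟨i₁, hi₁⟩ := hE2 α hα hαE f q hf ho hdq hq0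
  obtain ⟨K, hK⟩ : ∃ K : ℝ, K = 2 + 42 / η := ⟨_, rfl⟩
  have hK0 : 0 < K := by rw [hK]; positivity
  obtain ⟨y₀, hy₀⟩ : ∃ y₀ : ℝ, ∀ y : ℝ, y₀ ≤ y → 4 * K * (y - 1) ^ (-(η / 2)) ≤ y ^ (-(η / 4)) ∧ y ^ (-(η / 4)) ≤ 1 := by
    have h2 : Filter.Tendsto (fun x : ℝ => x ^ (η / 4)) Filter.atTop Filter.atTop := tendsto_rpow_atTop (by positivity)
    have h3 := h2.eventually_ge_atTop (8 * K)
    obtain ⟨y₀, hy₀⟩ := Filter.eventually_atTop.1 (h3.and (Filter.eventually_ge_atTop (2 : ℝ)))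
    refine ⟨y₀, fun y hy => ?_⟩
    obtain ⟨h5, h6⟩ := hy₀ y hy
    have hy0 : 0 < y := by linarith
    have h7 : (y - 1) ^ (-(η / 2)) ≤ (y / 2) ^ (-(η / 2)) := Real.rpow_le_rpow_of_nonpos (by linarith) (by linarith) (by linarith)
    have h8 : (y / 2) ^ (-(η / 2)) = y ^ (-(η / 2)) * 2 ^ (η / 2) := by
      rw [Real.div_rpow hy0.le (by norm_num), Real.rpow_neg (by norm_num : (0 : ℝ) ≤ 2)]
      field_simp
    have h9 : (2 : ℝ) ^ (η / 2) ≤ 2 := by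
      calc (2 : ℝ) ^ (η / 2) ≤ 2 ^ (1 : ℝ) := Real.rpow_le_rpow_of_exponent_le (by norm_num) (by linarith)
        _ = 2 := Real.rpow_one 2
    have h10 : y ^ (-(η / 2)) = y ^ (-(η / 4)) * y ^ (-(η / 4)) := by
      rw [← Real.rpow_add hy0]
      congr 1
      ring
    have h11 : 0 < y ^ (-(η / 4)) := Real.rpow_pos_of_pos hy0 _
    have h12 : y ^ (-(η / 4)) * y ^ (η / 4) = 1 := by
      rw [← Real.rpow_add hy0]
      simp
    refine ⟨?_, Real.rpow_le_one_of_one_le_of_nonpos (by linarith) (by linarith)⟩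
    calc 4 * K * (y - 1) ^ (-(η / 2)) ≤ 4 * K * (y ^ (-(η / 2)) * 2) := by
          apply mul_le_mul_of_nonneg_left _ (by positivity)
          rw [h8] at h7
          exact h7.trans (mul_le_mul_of_nonneg_left h9 (by positivity))
      _ = (8 * K) * y ^ (-(η / 4)) * y ^ (-(η / 4)) := by rw [h10]; ring
      _ ≤ y ^ (η / 4) * y ^ (-(η / 4)) * y ^ (-(η / 4)) := by gcongr
      _ = y ^ (-(η / 4)) := by rw [mul_comm (y ^ (η / 4)), h12, one_mul]
  obtain ⟨i₂, hi₂⟩ := Pool.Agent.X35.GV.log_large hv1 hτ hθ hv α hα (max y₀ 64) C hC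
  refine ⟨max i₁ i₂, fun i hi n hn y x hy hyx hx s hs1 hs2 hs3 => ?_⟩
  have hlarge := hi₂ i (le_trans (le_max_right _ _) hi) n hn
  have hyy : y₀ ≤ y := ((le_max_left _ _).trans hlarge).trans hy
  have hy64 : (64 : ℝ) ≤ y := ((le_max_right _ _).trans hlarge).trans hy
  have hy64n : 64 ≤ y := by exact_mod_cast hy64
  obtain ⟨hb1, hb2⟩ := hy₀ y hyy
  have hy0 : (0 : ℝ) < y := by linarith
  -- the coefficients
  obtain ⟨c, hc⟩ : ∃ c : ℕ → ℂ, c = fun k => if k ∈ Pool.Agent.X35.GV.op k then ((Pool.Agent.X35.GV.ptr f q n k : ℝ) : ℂ) *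
    (k : ℂ) ^ (-((s.im : ℂ) * Complex.I)) else 0 := ⟨_, rfl⟩
  have hsum : ∀ m : ℕ, ∑ k ∈ range (m + 1), c k = ∑ p ∈ Pool.Agent.X35.GV.op m, ((Pool.Agent.X35.GV.ptr f q n p : ℝ) : ℂ) *
      (p : ℂ) ^ (-((s.im : ℂ) * Complex.I)) := by
    intro m
    rw [hc, ← sum_filter]
    congr 1
    ext k
    rw [mem_filter, mem_range, Pool.Agent.X35.GV.mem_op, Pool.Agent.X35.GV.mem_op]
    constructor
    · rintro ⟨h1, h2, h3⟩
      exact ⟨by omega, h3⟩
    · rintro ⟨h1, h2⟩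
      exact ⟨by omega, le_rfl, h2⟩
  have hS : ∀ m : ℕ, y ≤ m → m ≤ x → ‖∑ k ∈ range (m + 1), c k‖ ≤ (m : ℝ) ^ (1 + η / 2) := by
    intro m h1 h2
    rw [hsum m]
    have h1' : (y : ℝ) ≤ m := by exact_mod_cast h1
    have h2' : (m : ℝ) ≤ x := by exact_mod_cast h2
    refine hi₁ i (le_trans (le_max_left _ _) hi) n hn m (hy.trans h1') (h2'.trans hx) s.im ?_
    exact hs3.trans (Real.rpow_le_rpow hy0.le h1' hA)
  have habel := Pool.Agent.X35.GV.abel c (1 + η / 2) s.re (by positivity) (by linarith) y x (by omega) hyx hS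
  obtain ⟨P, hP⟩ : ∃ P : Finset ℕ, P = (Ioc y x).filter Nat.Prime := ⟨_, rfl⟩
  have hmem : ∀ p ∈ P, y < p ∧ p ≤ x ∧ p.Prime ∧ p ≠ 2 := by
    intro p hp
    rw [hP, mem_filter, mem_Ioc] at hp
    exact ⟨hp.1.1, hp.1.2, hp.2, by omega⟩
  have hcast : ∀ p : ℕ, p.Prime → ∀ b t : ℝ, ((p : ℝ) ^ (-b) : ℝ) * (p : ℂ) ^ (-((t : ℂ) * Complex.I)) = (p : ℂ) ^ (-((b : ℂ) + t * Complex.I)) := by
    intro p hp b t
    have hp0 : (p : ℂ) ≠ 0 := by exact_mod_cast hp.ne_zero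
    rw [Complex.ofReal_cpow (Nat.cast_nonneg _), neg_add, Complex.cpow_add _ _ hp0]
    push_cast
    rfl
  have hz1 : ∑ k ∈ Ioc y x, c k * ((k : ℝ) ^ (-s.re) : ℝ) = ∑ p ∈ P, (trace f q n p : ℂ) * (p : ℂ) ^ (-s) := by
    have e : ∀ k ∈ Ioc y x, c k * ((k : ℝ) ^ (-s.re) : ℝ) = if k.Prime then (trace f q n k : ℂ) * (k : ℂ) ^ (-s) else 0 := by
      intro k hk
      rw [mem_Ioc] at hk
      rw [hc]
      beta_reduce
      by_cases hkp : k.Prime
      · rw [if_pos (Pool.Agent.X35.GV.mem_op.2 ⟨le_rfl, hkp, by omega⟩), if_pos hkp]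
        have h1 := hcast k hkp s.re s.im
        rw [Complex.re_add_im] at h1
        rw [← h1]
        have h2 : Pool.Agent.X35.GV.ptr f q n k = trace f q n k := rfl
        rw [h2]
        push_cast
        ring
      · rw [if_neg (fun h => hkp (Pool.Agent.X35.GV.mem_op.1 h).2.1), if_neg hkp, zero_mul]
    rw [sum_congr rfl e, hP, sum_filter]
  have hre : 0 < s.re - (1 + η / 2) := by linarith
  have hbd1 : ‖∑ p ∈ P, (trace f q n p : ℂ) * (p : ℂ) ^ (-s)‖ ≤ (2 + 8 / η) * ((y : ℝ) - 1) ^ (-(η / 2)) := by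
    rw [← hz1]
    refine habel.trans ?_
    have h1 : ((y : ℝ) - 1) ^ (-(s.re - (1 + η / 2))) ≤ ((y : ℝ) - 1) ^ (-(η / 2)) :=
      Real.rpow_le_rpow_of_exponent_le (by linarith) (by linarith)
    have h2 : 2 * s.re / (s.re - (1 + η / 2)) ≤ 8 / η := by
      rw [div_le_div_iff₀ hre hη]
      nlinarith
    have h3 : 0 ≤ 2 * s.re / (s.re - (1 + η / 2)) := by
      apply div_nonneg _ hre.le
      linarith
    have h4 : 0 ≤ ((y : ℝ) - 1) ^ (-(s.re - (1 + η / 2))) := Real.rpow_nonneg (by linarith) _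
    exact mul_le_mul (by linarith) h1 h4 (by positivity)
  have hpz : ∀ p ∈ P, ‖(p : ℂ) ^ (1 - 2 * s)‖ ≤ (p : ℝ) ^ (-1 - η / 2) := by
    intro p hp
    obtain ⟨h1, h2, h3, h4⟩ := hmem p hp
    have hp1 : (1 : ℝ) ≤ p := by exact_mod_cast h3.one_lt.le
    rw [Complex.norm_natCast_cpow_of_pos h3.pos]
    apply Real.rpow_le_rpow_of_exponent_le hp1
    simp only [Complex.sub_re, Complex.one_re, Complex.mul_re, Complex.re_ofNat, Complex.im_ofNat, zero_mul, sub_zero]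
    linarith
  have htail : ∑ p ∈ P, (p : ℝ) ^ (-1 - η / 2) ≤ (2 / η) * ((y : ℝ) - 1) ^ (-(η / 2)) := by
    have h1 : ∑ p ∈ P, (p : ℝ) ^ (-1 - η / 2) ≤ ∑ k ∈ Ioc y x, (k : ℝ) ^ (-1 - η / 2) := by
      rw [hP]
      exact sum_le_sum_of_subset_of_nonneg (filter_subset _ _) fun k _ _ => by positivity
    have h2 := Pool.Agent.X35.GV.tail (η / 2) (by positivity) y x (by omega) hyx
    have h3 : (0 : ℝ) ≤ (x : ℝ) ^ (-(η / 2)) := by positivity
    have h4 : (y : ℝ) ^ (-(η / 2)) ≤ ((y : ℝ) - 1) ^ (-(η / 2)) := Real.rpow_le_rpow_of_nonpos (by linarith) (by linarith) (by linarith)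
    have h5 : (1 / (η / 2)) * ((y : ℝ) ^ (-(η / 2)) - (x : ℝ) ^ (-(η / 2))) ≤ (2 / η) * ((y : ℝ) - 1) ^ (-(η / 2)) := by
      have h6 : 1 / (η / 2) = 2 / η := by field_simp
      rw [h6]
      apply mul_le_mul_of_nonneg_left _ (by positivity)
      linarith
    linarith
  have htr : ∀ p ∈ P, ‖(trace f q n p : ℂ) * (p : ℂ) ^ (-s)‖ ≤ 3 * (p : ℝ) ^ (-(1 / 2) - η) := by
    intro p hp
    obtain ⟨h1, h2, h3, h4⟩ := hmem p hp
    have hp1 : (1 : ℝ) ≤ p := by exact_mod_cast h3.one_lt.le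
    have hp0 : (0 : ℝ) < p := by linarith
    have h5 := Pool.Agent.X35.GV.ptr_bound f q hf ho hdq n p h3 h4
    have h5' : |((trace f q n p : ℤ) : ℝ)| ≤ 3 * √(p : ℝ) := by
      rw [hd] at h5
      exact_mod_cast h5
    rw [norm_mul, Complex.norm_natCast_cpow_of_pos h3.pos, Complex.norm_intCast, Complex.neg_re]
    calc _ ≤ (3 * √(p : ℝ)) * (p : ℝ) ^ (-s.re) := mul_le_mul_of_nonneg_right h5' (by positivity)
      _ ≤ (3 * √(p : ℝ)) * (p : ℝ) ^ (-(1 + η)) := by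
          apply mul_le_mul_of_nonneg_left _ (by positivity)
          exact Real.rpow_le_rpow_of_exponent_le hp1 (by linarith)
      _ = 3 * (p : ℝ) ^ (-(1 / 2) - η) := by
          rw [Real.sqrt_eq_rpow, mul_assoc, ← Real.rpow_add hp0]
          congr 2
          ring
  obtain ⟨z, hz⟩ : ∃ z : ℕ → ℂ, z = fun p => (trace f q n p : ℂ) * (p : ℂ) ^ (-s) - (p : ℂ) ^ (1 - 2 * s) := ⟨_, rfl⟩
  have hzn : ∀ p ∈ P, ‖z p‖ ≤ 4 * (p : ℝ) ^ (-(1 / 2) - η) := by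
    intro p hp
    obtain ⟨h1, h2, h3, h4⟩ := hmem p hp
    have hp1 : (1 : ℝ) ≤ p := by exact_mod_cast h3.one_lt.le
    rw [hz]
    refine (norm_sub_le _ _).trans ?_
    have h5 := htr p hp
    have h6 : ‖(p : ℂ) ^ (1 - 2 * s)‖ ≤ (p : ℝ) ^ (-(1 / 2) - η) := by
      rw [Complex.norm_natCast_cpow_of_pos h3.pos]
      apply Real.rpow_le_rpow_of_exponent_le hp1
      simp only [Complex.sub_re, Complex.one_re, Complex.mul_re, Complex.re_ofNat, Complex.im_ofNat, zero_mul, sub_zero]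
      linarith
    linarith
  have hfin := Pool.Agent.X35.GV.prod_near P z (K * ((y : ℝ) - 1) ^ (-(η / 2))) (by
      have : 4 * (K * ((y : ℝ) - 1) ^ (-(η / 2))) ≤ 1 := by linarith
      linarith) (by
      rw [hz, sum_sub_distrib]
      refine (norm_sub_le _ _).trans ?_
      have h1 : ‖∑ p ∈ P, (p : ℂ) ^ (1 - 2 * s)‖ ≤ (2 / η) * ((y : ℝ) - 1) ^ (-(η / 2)) :=
        (norm_sum_le _ _).trans ((sum_le_sum hpz).trans htail)
      have h2 : K * ((y : ℝ) - 1) ^ (-(η / 2)) = (2 + 8 / η) * ((y : ℝ) - 1) ^ (-(η / 2)) + (2 / η) * ((y : ℝ) - 1) ^ (-(η / 2)) +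
          (32 / η) * ((y : ℝ) - 1) ^ (-(η / 2)) := by
        rw [hK]
        ring
      have h3 : 0 ≤ (32 / η) * ((y : ℝ) - 1) ^ (-(η / 2)) := mul_nonneg (by positivity) (Real.rpow_nonneg (by linarith) _)
      linarith) (by
      have h1 : ∀ p ∈ P, ‖z p‖ ^ 2 ≤ 16 * (p : ℝ) ^ (-1 - η / 2) := by
        intro p hp
        obtain ⟨h1, h2, h3, h4⟩ := hmem p hp
        have hp1 : (1 : ℝ) ≤ p := by exact_mod_cast h3.one_lt.le
        have hp0 : (0 : ℝ) < p := by linarith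
        calc ‖z p‖ ^ 2 ≤ (4 * (p : ℝ) ^ (-(1 / 2) - η)) ^ 2 := pow_le_pow_left₀ (norm_nonneg _) (hzn p hp) 2
          _ = 16 * (p : ℝ) ^ (-1 - 2 * η) := by
              rw [mul_pow, ← Real.rpow_natCast ((p : ℝ) ^ (-(1 / 2) - η)), ← Real.rpow_mul hp0.le]
              norm_num
              ring_nf
          _ ≤ 16 * (p : ℝ) ^ (-1 - η / 2) := by
              apply mul_le_mul_of_nonneg_left _ (by norm_num)
              exact Real.rpow_le_rpow_of_exponent_le hp1 (by linarith)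
      calc _ ≤ ∑ p ∈ P, 16 * (p : ℝ) ^ (-1 - η / 2) := sum_le_sum h1
        _ = 16 * ∑ p ∈ P, (p : ℝ) ^ (-1 - η / 2) := by rw [mul_sum]
        _ ≤ 16 * ((2 / η) * ((y : ℝ) - 1) ^ (-(η / 2))) := mul_le_mul_of_nonneg_left htail (by norm_num)
        _ ≤ K * ((y : ℝ) - 1) ^ (-(η / 2)) := by
            have h2 : 16 * ((2 / η) * ((y : ℝ) - 1) ^ (-(η / 2))) = (32 / η) * ((y : ℝ) - 1) ^ (-(η / 2)) := by ring
            rw [h2]
            apply mul_le_mul_of_nonneg_right _ (Real.rpow_nonneg (by linarith) _)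
            rw [hK]
            have : 32 / η ≤ 42 / η := by
              apply div_le_div_of_nonneg_right _ hη.le
              norm_num
            linarith) (by
      intro p hp
      obtain ⟨h1, h2, h3, h4⟩ := hmem p hp
      have hp64 : (64 : ℝ) ≤ p := by exact_mod_cast (by omega : 64 ≤ p)
      refine (hzn p hp).trans ?_
      have h5 : (p : ℝ) ^ (-(1 / 2) - η) ≤ (64 : ℝ) ^ (-(1 / 2) : ℝ) := by
        calc (p : ℝ) ^ (-(1 / 2) - η) ≤ (p : ℝ) ^ (-(1 / 2) : ℝ) := Real.rpow_le_rpow_of_exponent_le (by linarith) (by linarith)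
          _ ≤ (64 : ℝ) ^ (-(1 / 2) : ℝ) := Real.rpow_le_rpow_of_nonpos (by norm_num) hp64 (by norm_num)
      have h6 : (64 : ℝ) ^ (-(1 / 2) : ℝ) = 1 / 8 := by
        rw [Real.rpow_neg (by norm_num), ← Real.sqrt_eq_rpow, show (64 : ℝ) = 8 ^ 2 by norm_num, Real.sqrt_sq (by norm_num)]
        norm_num
      rw [h6] at h5
      linarith)
  have hprod : eulerProduct f q n y x s = ∏ p ∈ P, (1 - z p)⁻¹ := by
    unfold eulerProduct
    rw [hz, hP]
  rw [hprod]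
  refine hfin.trans ?_
  linarith

end Pool.Agent.Results.MP_3283e1_nt.EulerProductsOfPencils
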