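import Pool.Agent.X22.EQ6

/-!
# The original Birch–Swinnerton-Dyer product at the central point for almost all members of arbitrarily thin families

Nothing is used besides Mathlib in the statement.
-/

set_option autoImplicit false

namespace Pool.Agent.Results.MP_3283e1_nt.FewDigitCentralProducts

open Finset

/-- `a_p` for the curve `Y ^ 2 = X ^ 3 + s X + t` modulo `p`: `p` minus the number of its affine points over `ℤ/p`. -/
noncomputable def trace (p : ℕ) (s t : ZMod p) : ℤ :=
  (p : ℤ) - Nat.card {P : ZMod p × ZMod p // P.2 ^ 2 = P.1 ^ 3 + s * P.1 + t}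

/-- The value modulo `p` of the linear form `∑ m_l a_l`. -/
def form {d : ℕ} (a : Fin d → ℤ) (p : ℕ) (m : Fin d → ℕ) : ZMod p := ∑ l, (m l : ZMod p) * (a l : ZMod p)

/-- The product over the primes `p` with `y < p ≤ x` of `1 - w (p) a_p / p + 1 / p` for the curve `Y ^ 2 = X ^ 3 + a (m) X + e (m)`. If `w (p) = 1`, then the factor is
`#E(𝔽_p) / p` (with the point at infinity); if `w` is a quadratic character, it is the same for the twisted curve (for the primes not dividing the conductor of `w`). -/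
noncomputable def product {d : ℕ} (a e : Fin d → ℤ) (w : ℕ → ℝ) (m : Fin d → ℕ) (y x : ℕ) : ℝ :=
  ∏ p ∈ (Ioc y x).filter Nat.Prime, (1 - w p * trace p (form a p m) (form e p m) / p + 1 / p)

/-- The main term for the logarithm of the product: the sum of `(1 - w (p) ^ 2 / 2) / p` over the primes `p` with `y < p ≤ x`. -/
noncomputable def mainTerm (w : ℕ → ℝ) (y x : ℕ) : ℝ :=
  ∑ p ∈ (Ioc y x).filter Nat.Prime, (1 - w p ^ 2 / 2) / p

/-- `log (log x / log y)`. -/
noncomputable def level (y x : ℕ) : ℝ := Real.log (Real.log x / Real.log y)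

/-- The condition on the two linear forms `a`, `e`: one variable occurs only in `a` and one only in `e`, both with coefficient `1`. -/
def Free {d : ℕ} (a e : Fin d → ℤ) : Prop := ∃ l₀ l₁, a l₀ = 1 ∧ e l₀ = 0 ∧ a l₁ = 0 ∧ e l₁ = 1

/-- The digit number `i` (counted from the right, beginning with `0`) of `n` in base `b`. -/
def digit (b i n : ℕ) : ℕ := n / b ^ i % b

/-- The number which arises from the number `N` with at most `K` digits in base `b`, if for every `i ∈ S`
the digit number `i` is replaced by `f i`. -/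
def change (b K N : ℕ) (f : ℕ → ℕ) (S : Finset ℕ) : ℕ :=
  ∑ i ∈ range K, (if i ∈ S then f i else digit b i N) * b ^ i

open Classical in
/-- The number of the choices of `s l` of `K l` positions for all `l < d` for which the vector of the numbers obtained by
changing the digits of the `N l` at the chosen positions (according to `f l`) does not have the property `E`. -/
noncomputable def exceptions {d : ℕ} (b : ℕ) (K s N : Fin d → ℕ) (f : Fin d → ℕ → ℕ) (E : (Fin d → ℕ) → Prop) : ℕ :=
  ((Fintype.piFinset (fun l => powersetCard (s l) (range (K l)))).filter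
    (fun S => ¬ E (fun l => change b (K l) (N l) (f l) (S l)))).card

open Pool.Agent.X22.EQ Pool.Agent.TH894.NE

/-- **The original product at the central point in thin families.** Let a base `b ≥ 2`, integers `d ≥ 1`, `A ≥ 0` and `δ > 0` be given. There are
`c > 0`, `C > 0` and `y₀` such that for all integers `r_l`, `K_l` (`l = 1, ..., d`), `y` with `2 r_l ≤ K_l` and `y ≥ y₀` the following holds.

Let `0 ≤ N_l < b ^ K_l` be arbitrary integers, prescribe for every position `j` a digit `f l j` different from the digit of `N_l` in base `b`, and let `Λ` be a finite set of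
systems `(a, e, w)` of linear forms `a`, `e` with integer coefficients in `d` variables which satisfy `Free` and functions `w` with real values, `|w (n)| ≤ 1`. Let `T > 0`.
If one chooses `r_l` of the `K_l` positions and replaces the digits of `N_l` at these positions, then for all but at most a proportion
`C #Λ / T ^ A` of the choices the vector `m` obtained has the following property: for all integers `x` with
`y ≤ x ≤ exp (c √r_l)` for all `l` and all systems from `Λ` the product `P` is positive, and with `λ = log (log x / log y)` one has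
`|log P - ∑ (1 - w (p) ^ 2 / 2) / p| ≤ T (1 + λ) ^ (1 / 2 + δ)`, and, if `w (p) = ± 1` for all primes `p > y`,
`|log P - λ / 2| ≤ T (1 + λ) ^ (1 / 2 + δ)`. -/
theorem result (b d : ℕ) (hb : 2 ≤ b) (hd : 1 ≤ d) (δ : ℝ) (hδ : 0 < δ) (A : ℕ) :
    ∃ c : ℝ, 0 < c ∧ ∃ C : ℝ, 0 < C ∧ ∃ y₀ : ℕ,
    ∀ (K r : Fin d → ℕ) (y : ℕ), (∀ l, 2 * r l ≤ K l) → y₀ ≤ y →
    ∀ N : Fin d → ℕ, (∀ l, N l < b ^ K l) → ∀ f : Fin d → ℕ → ℕ, (∀ l j, f l j < b ∧ f l j ≠ digit b j (N l)) →
    ∀ (κ : Type) (Λ : Finset κ) (a e : κ → Fin d → ℤ) (w : κ → ℕ → ℝ), (∀ l ∈ Λ, Free (a l) (e l)) → (∀ l ∈ Λ, ∀ n, |w l n| ≤ 1) →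
    ∀ T : ℝ, 0 < T →
      (exceptions b K r N f (fun m => ∀ x : ℕ, y ≤ x → (∀ i, (x : ℝ) ≤ Real.exp (c * Real.sqrt (r i))) → ∀ l ∈ Λ,
        0 < product (a l) (e l) (w l) m y x ∧
        |Real.log (product (a l) (e l) (w l) m y x) - mainTerm (w l) y x| ≤ T * (1 + level y x) ^ (1 / 2 + δ) ∧
        ((∀ p : ℕ, p.Prime → y < p → w l p ^ 2 = 1) →
          |Real.log (product (a l) (e l) (w l) m y x) - level y x / 2| ≤ T * (1 + level y x) ^ (1 / 2 + δ))) : ℝ) ≤
        C * Λ.card / T ^ A * ∏ l, ((K l).choose (r l) : ℝ) := by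
  classical
  obtain ⟨C₀, hC₀, hmer⟩ := hs_la
  obtain ⟨c, hc, C, hC, y₀, h⟩ := central_main b d A hb hd δ hδ 6 55 C₀ (by norm_num) (by norm_num) hC₀
  refine ⟨Real.sqrt c, Real.sqrt_pos.2 hc, C, hC, y₀ + 64, fun K r y hrK hy N hN f hf κ Λ a e w hfree hw T hT => ?_⟩
  obtain ⟨G, hG⟩ : ∃ G : κ → ℕ → (Fin d → ℕ) → ℝ, G = fun l p m => Real.log (1 - w l p * trace p (form (a l) p m) (form (e l) p m) / p + 1 / p) := ⟨_, rfl⟩
  have htq : ∀ (p : ℕ) [Fact p.Prime] (s t : ZMod p), trace p s t = Pool.Agent.X22.EC.tq s t := by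
    intro p _ s t
    unfold trace Pool.Agent.X22.EC.tq
    rw [Nat.card_eq_fintype_card (α := ZMod p), ZMod.card]
  have hbound : ∀ (p : ℕ), p.Prime → 64 ≤ p → ∀ s t : ZMod p, |(trace p s t : ℝ)| ≤ 2 * Real.sqrt p := by
    intro p hp hp64 s t
    have hf : Fact p.Prime := ⟨hp⟩
    have h3 : ringChar (ZMod p) ≠ 2 := by
      rw [ZMod.ringChar_zmod_n]
      omega
    rw [htq]
    have := Pool.Agent.X22.EC.tq_bound h3 s t
    rwa [Nat.card_eq_fintype_card, ZMod.card] at this
  have hpos : ∀ l ∈ Λ, ∀ p : ℕ, p.Prime → 64 ≤ p → ∀ m, 0 < 1 - w l p * trace p (form (a l) p m) (form (e l) p m) / p + 1 / p ∧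
      |G l p m| ≤ 6 / Real.sqrt p := by
    intro l hl p hp hp64 m
    rw [hG]
    exact log_size p hp64 (w l p) _ (hw l hl p) (hbound p hp hp64 _ _)
  have key := h K r y hrK (by omega) N hN f hf κ Λ G (fun l p => (1 - w l p ^ 2 / 2) / p) ?_ ?_ ?_ T hT
    (fun m => ∀ x : ℕ, y ≤ x → (∀ i, (x : ℝ) ≤ Real.exp (Real.sqrt c * Real.sqrt (r i))) → ∀ l ∈ Λ,
        0 < product (a l) (e l) (w l) m y x ∧
        |Real.log (product (a l) (e l) (w l) m y x) - mainTerm (w l) y x| ≤ T * (1 + level y x) ^ (1 / 2 + δ) ∧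
        ((∀ p : ℕ, p.Prime → y < p → w l p ^ 2 = 1) →
          |Real.log (product (a l) (e l) (w l) m y x) - level y x / 2| ≤ T * (1 + level y x) ^ (1 / 2 + δ))) ?_
  · unfold exceptions
    exact key
  · intro l _ p _ _ m
    rw [hG]
    show Real.log (1 - w l p * trace p (form (a l) p m) (form (e l) p m) / p + 1 / p) =
      Real.log (1 - w l p * trace p (form (a l) p (fun i => m i % p)) (form (e l) p (fun i => m i % p)) / p + 1 / p)
    have h1 : ∀ u : Fin d → ℤ, form u p m = form u p (fun i => m i % p) := fun u => Pool.Agent.X22.SP.lin_mod u p m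
    rw [h1 (a l), h1 (e l)]
  · intro l hl p hp hyp m
    exact (hpos l hl p hp (by omega) m).2
  · intro l hl p hp hyp
    have hf : Fact p.Prime := ⟨hp⟩
    obtain ⟨l₀, l₁, ha0, he0, ha1, he1⟩ := hfree l hl
    have h1 := mean_two (p := p) (fun i => ((a l i : ℤ) : ZMod p)) (fun i => ((e l i : ℤ) : ZMod p)) l₀ l₁ (by rw [ha0, Int.cast_one])
      (by rw [he0, Int.cast_zero]) (by rw [ha1, Int.cast_zero]) (by rw [he1, Int.cast_one])
      (fun s t => Real.log (1 - w l p * (Pool.Agent.X22.EC.tq s t : ℝ) / p + 1 / p))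
    have h2 : mean d p (G l p) = (∑ z : ZMod p × ZMod p, Real.log (1 - w l p * (Pool.Agent.X22.EC.tq z.1 z.2 : ℝ) / p + 1 / p)) / (p : ℝ) ^ 2 := by
      rw [← h1, hG]
      congr 1
      funext m
      show Real.log (1 - w l p * trace p (form (a l) p m) (form (e l) p m) / p + 1 / p) = _
      rw [htq]
      rfl
    rw [h2]
    exact mean_log p hp (by omega) (w l p) (hw l hl p)
  · intro m hm x hx1 hx2 l hl
    have h1 := hm x hx1 (fun i => by
      have hx0 : 0 < x := by omega
      have h3 : Real.log x ≤ Real.sqrt c * Real.sqrt (r i) := by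
        rw [Real.log_le_iff_le_exp (by exact_mod_cast hx0)]
        exact hx2 i
      have h4 : 0 ≤ Real.log x := Real.log_nonneg (by exact_mod_cast hx0)
      calc Real.log x ^ 2 ≤ (Real.sqrt c * Real.sqrt (r i)) ^ 2 := pow_le_pow_left₀ h4 h3 2
        _ = c * r i := by rw [mul_pow, Real.sq_sqrt hc.le, Real.sq_sqrt (Nat.cast_nonneg _)]) l hl
    have hmem : ∀ p ∈ (Ioc y x).filter Nat.Prime, p.Prime ∧ 64 ≤ p := by
      intro p hp
      rw [mem_filter, mem_Ioc] at hp
      exact ⟨hp.2, by omega⟩
    have hP : 0 < product (a l) (e l) (w l) m y x := by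
      unfold product
      exact prod_pos fun p hp => (hpos l hl p (hmem p hp).1 (hmem p hp).2 m).1
    have hlog : Real.log (product (a l) (e l) (w l) m y x) = ∑ p ∈ pin y x, G l p m := by
      unfold product
      rw [Real.log_prod (fun p hp => (hpos l hl p (hmem p hp).1 (hmem p hp).2 m).1.ne'), hG]
      rfl
    have hmain : Real.log (product (a l) (e l) (w l) m y x) - mainTerm (w l) y x = ∑ p ∈ pin y x, (G l p m - (1 - w l p ^ 2 / 2) / p) := by
      rw [hlog, sum_sub_distrib]
      rfl
    refine ⟨hP, ?_, fun hw1 => ?_⟩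
    · rw [hmain]
      have : T * (1 + la y x) ^ (1 / 2 + δ) = T * (1 + level y x) ^ (1 / 2 + δ) := rfl
      linarith
    · have h5 : mainTerm (w l) y x = hs y x / 2 := by
        unfold mainTerm hs pin
        rw [sum_div]
        refine sum_congr rfl fun p hp => ?_
        rw [mem_filter, mem_Ioc] at hp
        rw [hw1 p hp.2 hp.1.1]
        ring
      have h6 := hmer y x (by omega) hx1
      have h7 : Real.log (product (a l) (e l) (w l) m y x) - level y x / 2 =
          (Real.log (product (a l) (e l) (w l) m y x) - mainTerm (w l) y x) + (hs y x - la y x) / 2 := by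
        rw [h5]
        show _ - la y x / 2 = _
        ring
      rw [h7, hmain]
      refine (abs_add_le _ _).trans ?_
      have h8 : |(hs y x - la y x) / 2| ≤ C₀ := by
        rw [abs_div, abs_of_pos (by norm_num : (0 : ℝ) < 2)]
        linarith
      have : T * (1 + la y x) ^ (1 / 2 + δ) = T * (1 + level y x) ^ (1 / 2 + δ) := rfl
      linarith

end Pool.Agent.Results.MP_3283e1_nt.FewDigitCentralProducts
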