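import Pool.Agent.X278.OP.NF
import Pool.Agent.X278.OP.Bd
import Pool.Agent.X278.AV.RQ

/-!
# The original product of Birch and Swinnerton-Dyer with a rotated weight

`K` is any number field and `E : y² = x³ + a x + b`, `a, b ∈ 𝓞_K`. For a prime `v` of `K` which does not divide
`6 (4 a³ + 27 b²)` let `q_v` be the norm and `N_v` the number of affine points modulo `v`; so `N_v + 1 = #E(k_v)`. In Q1
one asks whether

`∏_{p ≤ x} #E(𝔽_p) / p ∼ A (log x)^r`, `r = rank E(ℚ)`,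

and this implies the Riemann hypothesis for `L(E, s)` (Goldfeld 1982). Here the sharp cut-off is replaced by the weight
`w_T(v) = exp(iγ u) / Γ(1 + u)`, `u = log q_v / T`, `γ > π/2` fixed (`T` plays the role of `log x`):

`P(T) = ∏_v (#E(k_v) / q_v)^{w_T(v)} = exp S(T)`, `S(T) = ∑_v log((N_v + 1) / q_v) w_T(v)`,

an absolutely convergent product of the ORIGINAL factors over the primes `v` (no prime powers). Let `F` be the incomplete
`L`-series, continued to a function which is meromorphic at the real points of `[1, 3/2]`. NOTHING is assumed on zeros.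

A. If `m` is the order of `F` at `1` then `c T^m ≤ |P(T)| ≤ C T^m` for large `T`, `c > 0`. So for every integer `r` (the
   rank, for instance): `m = r` iff `Re S(T) / log T → r`; `m ≥ r` iff `|P(T)| ≥ c T^r` for some `c > 0`; `m ≤ r` iff
   `|P(T)| ≤ C T^r` for some `C`.
B. If also the product of the `(1 - (a_v² - 2 q_v) q_v^{-s} + q_v^{2-2s})⁻¹`, `a_v = q_v - N_v`, is meromorphic at `s = 2`,
   of order `n`, then `S(T) = m (log T - Λ(γ)) - log l + (n/2) log 2 + O(1/T)`, `l` being the leading coefficient of `F` at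
   `1`. Hence `m = r` iff `P(T) / T^r` has a limit `≠ 0`, and then the limit is `2^{n/2} e^{-rΛ} / l`; and for `B ≠ 0`:
   `P(T) / T^r → 2^{n/2} e^{-rΛ} / B` iff `m = r` and `l = B`.

For `K = ℚ` all hypotheses hold, with `n = 1`: `L(Sym² E, s)` is holomorphic and `≠ 0` at `2`, and the product in B is
`L(Sym² E, s) / ζ(s - 1)` up to finitely many factors. This is the factor `√2` of Goldfeld. So Q1, with the rotated weight
in place of the sharp cut-off, is EQUIVALENT to `ord_{s=1} L(E, s) = rank E(ℚ)`, without the Riemann hypothesis; and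
the constant is then the one of Goldfeld, with `-Λ(γ)` in place of Euler's constant.

UNCONDITIONAL (part II of the theorem): for `K = ℚ` and the curves `y² = x³ + A x`, `A ≠ 0`, we prove all hypotheses,
and `n = 1`. So for each of these curves `P(T) / T^m → √2 e^{-mΛ} / l`, `m` and `l` being the order and the leading
coefficient of the entire function `L` at `1`; and `P(T) ∼ C T^r`, `r = rank E(ℚ)`, `C ≠ 0`, if and only if `m = r`.

Proof: the rotated law for the sums over prime powers (`Pool.Agent.X287.CR`) at `1` for the system `α_v` and at `2` for the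
system `α_v²`, and the comparison `Pool.Agent.X278.OP.cmp` (the weight is Lipschitz).
-/

set_option autoImplicit false

open IsDedekindDomain NumberField Filter Topology

namespace Pool.Agent.Results.MP_3283e1_nt.RotatedOriginalProduct

variable {K : Type} [Field K] [NumberField K]

/-- The prime `v` does not divide `6 (4 a³ + 27 b²)`. -/
def Good (a b : 𝓞 K) (v : HeightOneSpectrum (𝓞 K)) : Prop :=
  6 * (4 * a ^ 3 + 27 * b ^ 2) ∉ v.asIdeal

/-- `q_v`, the norm of `v`. -/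
noncomputable def q (v : HeightOneSpectrum (𝓞 K)) : ℕ := Ideal.absNorm v.asIdeal

/-- `N_v`, the number of affine points of `y² = x³ + a x + b` modulo `v`. -/
noncomputable def points (a b : 𝓞 K) (v : HeightOneSpectrum (𝓞 K)) : ℕ :=
  Nat.card {P : (𝓞 K ⧸ v.asIdeal) × (𝓞 K ⧸ v.asIdeal) //
    P.2 ^ 2 = P.1 ^ 3 + Ideal.Quotient.mk v.asIdeal a * P.1 + Ideal.Quotient.mk v.asIdeal b}

/-- `F` is the incomplete `L`-series of `y² = x³ + a x + b` for `Re s > 3/2`. -/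
def IsLSeries (a b : 𝓞 K) (F : ℂ → ℂ) : Prop :=
  ∀ s : ℂ, 3 / 2 < s.re → HasProd (fun v : {v : HeightOneSpectrum (𝓞 K) // Good a b v} =>
    (1 - ((q v.1 : ℂ) - points a b v.1) * (q v.1 : ℂ) ^ (-s) + (q v.1 : ℂ) ^ (1 - 2 * s))⁻¹) (F s)

/-- `F₂` is the product of the `(1 - (a_v² - 2 q_v) q_v^{-s} + q_v^{2-2s})⁻¹` for `Re s > 2`, where `a_v = q_v - N_v`;
its factors are `((1 - α_v² q_v^{-s}) (1 - β_v² q_v^{-s}))⁻¹`. -/
def IsSquareSeries (a b : 𝓞 K) (F₂ : ℂ → ℂ) : Prop :=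
  ∀ s : ℂ, 2 < s.re → HasProd (fun v : {v : HeightOneSpectrum (𝓞 K) // Good a b v} =>
    (1 - (((q v.1 : ℂ) - points a b v.1) ^ 2 - 2 * q v.1) * (q v.1 : ℂ) ^ (-s) +
      (q v.1 : ℂ) ^ (2 - 2 * s))⁻¹) (F₂ s)

/-- The term `log((N_v + 1) / q_v) exp(iγu) / Γ(1 + u)`, `u = log q_v / T`. -/
noncomputable def term (a b : 𝓞 K) (γ T : ℝ) (v : {v : HeightOneSpectrum (𝓞 K) // Good a b v}) : ℂ :=
  Real.log (((points a b v.1 : ℝ) + 1) / q v.1) *
    (Complex.exp ((γ * (Real.log (q v.1) / T) : ℝ) * Complex.I) /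
      (Real.Gamma (1 + Real.log (q v.1) / T) : ℝ))

/-- `S(T)`, the logarithm of the product. -/
noncomputable def S (a b : 𝓞 K) (γ T : ℝ) : ℂ := ∑' v, term a b γ T v

/-- `P(T) = exp S(T) = ∏_v ((N_v + 1) / q_v)^{w_T(v)}`. -/
noncomputable def P (a b : 𝓞 K) (γ T : ℝ) : ℂ := Complex.exp (S a b γ T)

/-- The constant `Λ(γ) = ∫_0^∞ (e^{-t} - e^{iγt} / Γ(1 + t)) dt / t`. -/
noncomputable def Lambda (γ : ℝ) : ℂ := ∫ t in Set.Ioi (0 : ℝ),
  (Complex.exp (-(t : ℂ)) - Complex.exp ((γ * t : ℝ) * Complex.I) * ((Real.Gamma (1 + t))⁻¹ : ℝ)) / t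

open Classical in
/-- The rank of `E(K)`. -/
noncomputable def rank (a b : 𝓞 K) : ℕ :=
  Module.finrank ℤ ({ a₁ := 0, a₂ := 0, a₃ := 0, a₄ := (a : K), a₆ := (b : K) } : WeierstrassCurve K).toAffine.Point

open Pool.Agent.X287.CR Pool.Agent.X278.OP Pool.Agent.TH942.ES in
theorem Sp_eq_S (a b : 𝓞 K) (γ T : ℝ) : Sp (NN a b) (al a b) 1 γ T = S a b γ T := by
  unfold Sp S
  refine tsum_congr fun v => ?_
  rw [lg_al]
  unfold Wt Pool.Agent.W189.ML.om term
  rw [Complex.ofReal_inv, ← div_eq_mul_inv]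
  rfl

open Pool.Agent.X287.CR Pool.Agent.X278.OP Pool.Agent.TH942.ES in
/-- The original product of Birch and Swinnerton-Dyer with a rotated weight, any number field. -/
theorem general (a b : 𝓞 K) (F : ℂ → ℂ) (hF : IsLSeries a b F)
    (hFm : ∀ x : ℝ, 1 ≤ x → x ≤ 3 / 2 → MeromorphicAt F (x : ℂ)) (γ : ℝ) (hγ : Real.pi / 2 < γ) :
    -- absolute convergence
    (∀ T : ℝ, 0 < T → Summable fun v => ‖term a b γ T v‖) ∧
    -- the order and the leading coefficient, `l = exp(ρ)`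
    ∃ (m : ℤ) (ρ : ℂ), meromorphicOrderAt F 1 = m ∧ meromorphicTrailingCoeffAt F 1 = Complex.exp ρ ∧
      -- A. the order and the growth of the product
      (∃ c C : ℝ, 0 < c ∧ ∀ᶠ T : ℝ in atTop, c * T ^ m ≤ ‖P a b γ T‖ ∧ ‖P a b γ T‖ ≤ C * T ^ m) ∧
      (∀ r : ℤ, m = r ↔ Tendsto (fun T : ℝ => (S a b γ T).re / Real.log T) atTop (𝓝 (r : ℝ))) ∧
      (∀ r : ℤ, r ≤ m ↔ ∃ c : ℝ, 0 < c ∧ ∀ᶠ T : ℝ in atTop, c * T ^ r ≤ ‖P a b γ T‖) ∧
      (∀ r : ℤ, m ≤ r ↔ ∃ C : ℝ, ∀ᶠ T : ℝ in atTop, ‖P a b γ T‖ ≤ C * T ^ r) ∧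
      -- B. the asymptotic formula and the constant
      ∀ F₂ : ℂ → ℂ, IsSquareSeries a b F₂ → MeromorphicAt F₂ 2 →
        ∃ n : ℤ, meromorphicOrderAt F₂ 2 = n ∧
          (fun T : ℝ => S a b γ T - (m * (Real.log T - Lambda γ) - ρ + n / 2 * Real.log 2)) =O[atTop]
            (fun T : ℝ => 1 / T) ∧
          (∀ r : ℤ, m = r ↔ ∃ A : ℂ, A ≠ 0 ∧
            Tendsto (fun T : ℝ => P a b γ T / (T : ℂ) ^ r) atTop (𝓝 A)) ∧
          (∀ (r : ℤ) (B : ℂ), B ≠ 0 → ((m = r ∧ meromorphicTrailingCoeffAt F 1 = B) ↔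
            Tendsto (fun T : ℝ => P a b γ T / (T : ℂ) ^ r) atTop
              (𝓝 (((√2 : ℝ) : ℂ) ^ n * Complex.exp (-(r * Lambda γ)) / B)))) ∧
          -- the form of Q1
          (meromorphicOrderAt F 1 = ((rank a b : ℤ) : WithTop ℤ) ↔ ∃ A : ℂ, A ≠ 0 ∧
            Tendsto (fun T : ℝ => P a b γ T / (T : ℂ) ^ (rank a b)) atTop (𝓝 A)) := by
  have G := al_sys a b
  have hs1 : (1 / 2 : ℝ) + 1 / 2 ≤ (1 : ℂ).re := by norm_num
  obtain ⟨m, ρ, h1, h2, h3⟩ := G.law (L := F) (fun s hs => by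
    have h4 := hF s (by linarith)
    have h5 : fac (NN a b) (al a b) s = fun v : {v : HeightOneSpectrum (𝓞 K) // Good a b v} =>
        (1 - ((q v.1 : ℂ) - points a b v.1) * (q v.1 : ℂ) ^ (-s) + (q v.1 : ℂ) ^ (1 - 2 * s))⁻¹ := by
      funext v
      exact fac_al v s
    rw [h5]
    exact h4) (s₀ := 1) (by norm_num) (fun x hx0 hx1 => by
      have h4 := hFm (1 + x) (by linarith) (by
        rw [Complex.one_re] at hx1
        linarith)
      push_cast at h4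
      exact h4) hγ
  have hA : Asy (Lambda γ) (Su (NN a b) (al a b) 1 γ) m ρ := h3
  have hSp : Sp (NN a b) (al a b) 1 γ = S a b γ := by
    funext T
    exact Sp_eq_S a b γ T
  have hgr : Gr (S a b γ) m := by
    have := law_bdd G hs1 γ (curve_sys a b).log_sum hA
    rw [hSp] at this
    exact this
  refine ⟨fun T hT => ?_, m, ρ, h1, h2, hgr.norm_exp, hgr.iff, hgr.ge_iff, hgr.le_iff, fun F₂ hF₂ hm₂ => ?_⟩
  · have h4 := Sp_summable G hs1 γ hT
    refine h4.congr fun v => ?_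
    rw [lg_al]
    unfold Wt Pool.Agent.W189.ML.om term
    rw [Complex.ofReal_inv, ← div_eq_mul_inv]
    rfl
  · have G2 := sq_sys G
    obtain ⟨n, ρ₂, k1, -, k3⟩ := G2.law (L := F₂) (fun s hs => by
      have h4 := hF₂ s (by linarith)
      have h5 : fac (NN a b) (sq (al a b)) s = fun v : {v : HeightOneSpectrum (𝓞 K) // Good a b v} =>
          (1 - (((q v.1 : ℂ) - points a b v.1) ^ 2 - 2 * q v.1) * (q v.1 : ℂ) ^ (-s) +
            (q v.1 : ℂ) ^ (2 - 2 * s))⁻¹ := by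
        funext v
        exact fac_sq v s
      rw [h5]
      exact h4) (s₀ := 2 * 1) (by norm_num) (fun x hx0 hx1 => by
        have h5 : x = 0 := by
          have : ((2 : ℂ) * 1).re = 2 := by simp
          rw [this] at hx1
          linarith
        rw [h5]
        simpa using hm₂) hγ
    have hA2 : Asy (Lambda γ) (Su (NN a b) (sq (al a b)) (2 * 1) γ) n ρ₂ := k3
    have hL := law_places G hs1 γ hA hA2
    rw [hSp] at hL
    rw [mul_one] at k1
    have hr : ∀ r : ℤ, m = r ↔ ∃ A : ℂ, A ≠ 0 ∧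
        Tendsto (fun T : ℝ => P a b γ T / (T : ℂ) ^ r) atTop (𝓝 A) := fun r => asy_lim_iff hL r
    refine ⟨n, k1, ?_, hr, fun r B hB => ?_, ?_⟩
    · unfold Asy at hL
      refine hL.congr_left fun T => ?_
      ring
    · have h2n : ((√2 : ℝ) : ℂ) ^ n = Complex.exp (n / 2 * Real.log 2) := by
        have h4 : ((√2 : ℝ) : ℂ) = Complex.exp (1 / 2 * Real.log 2) := by
          have h5 : √2 = Real.exp (1 / 2 * Real.log 2) := by
            rw [Real.sqrt_eq_rpow, Real.rpow_def_of_pos (by norm_num)]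
            congr 1
            ring
          rw [h5]
          push_cast
          rfl
        rw [h4, ← Complex.exp_int_mul]
        congr 1
        ring
      have h2n0 : ((√2 : ℝ) : ℂ) ^ n ≠ 0 := by rw [h2n]; exact Complex.exp_ne_zero _
      have h4 := hL.lead_iff r (B := B / ((√2 : ℝ) : ℂ) ^ n) (div_ne_zero hB h2n0)
      have h5 : Complex.exp (-(r * Lambda γ)) / (B / ((√2 : ℝ) : ℂ) ^ n) =
          ((√2 : ℝ) : ℂ) ^ n * Complex.exp (-(r * Lambda γ)) / B := by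
        field_simp
      have h6 : (Complex.exp (ρ - n / 2 * Real.log 2) = B / ((√2 : ℝ) : ℂ) ^ n) ↔
          meromorphicTrailingCoeffAt F 1 = B := by
        rw [Complex.exp_sub, ← h2n, h2, div_left_inj' h2n0]
      rw [h5, h6] at h4
      exact h4
    · rw [h1]
      have h4 := hr (rank a b : ℤ)
      simp only [zpow_natCast] at h4
      rw [← h4]
      exact_mod_cast Iff.rfl

/-! ### the curves `y² = x³ + A x` over `ℚ` -/

/-- The prime `p` does not divide `6 A`. -/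
def GoodZ (A : ℤ) (p : ℕ) : Prop := ¬ (p : ℤ) ∣ 6 * A

/-- `N_p`, the number of affine points of `y² = x³ + A x` modulo `p`. -/
noncomputable def pointsZ (A : ℤ) (p : ℕ) : ℕ :=
  Nat.card {P : ZMod p × ZMod p // P.2 ^ 2 = P.1 ^ 3 + (A : ZMod p) * P.1}

open Classical in
/-- `F` is the incomplete `L`-series of `y² = x³ + A x` over `ℚ`, for `Re s > 3/2`; the primes `p ∣ 6 A` are left out. -/
def IsLSeriesZ (A : ℤ) (F : ℂ → ℂ) : Prop :=
  ∀ s : ℂ, 3 / 2 < s.re → HasProd (fun p : Nat.Primes => if GoodZ A p then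
    (1 - (((p : ℕ) : ℂ) - pointsZ A p) * ((p : ℕ) : ℂ) ^ (-s) + ((p : ℕ) : ℂ) ^ (1 - 2 * s))⁻¹ else 1) (F s)

open Classical in
/-- The term `log((N_p + 1) / p) exp(iγu) / Γ(1 + u)`, `u = log p / T`; `0` if `p` divides `6 A`. -/
noncomputable def termZ (A : ℤ) (γ T : ℝ) (p : Nat.Primes) : ℂ :=
  if GoodZ A p then
    Real.log (((pointsZ A p : ℝ) + 1) / (p : ℕ)) *
      (Complex.exp ((γ * (Real.log (p : ℕ) / T) : ℝ) * Complex.I) /
        (Real.Gamma (1 + Real.log (p : ℕ) / T) : ℝ))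
  else 0

/-- `S(T)` for `y² = x³ + A x` over `ℚ`. -/
noncomputable def SZ (A : ℤ) (γ T : ℝ) : ℂ := ∑' p, termZ A γ T p

/-- `P(T) = exp S(T) = ∏_{p ∤ 6A} ((N_p + 1) / p)^{w_T(p)}`. -/
noncomputable def PZ (A : ℤ) (γ T : ℝ) : ℂ := Complex.exp (SZ A γ T)

open Classical in
/-- The rank of `E(ℚ)`, `E : y² = x³ + A x`. -/
noncomputable def rankZ (A : ℤ) : ℕ :=
  Module.finrank ℤ ({ a₁ := 0, a₂ := 0, a₃ := 0, a₄ := (A : ℚ), a₆ := 0 } : WeierstrassCurve ℚ).toAffine.Point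

open Pool.Agent.X278.AV Pool.Agent.X278.OP in
theorem goodZ_iff (A : ℤ) (p : Nat.Primes) : GoodZ A p ↔ GoodQ A 0 p := by
  rw [← RQ.good_iff]
  unfold GoodZ
  have hp : Prime ((p : ℕ) : ℤ) := Nat.prime_iff_prime_int.1 p.2
  have e : 6 * (4 * A ^ 3 + 27 * 0 ^ 2) = 6 * A * (4 * A ^ 2) := by ring
  rw [e, not_iff_not]
  constructor
  · intro h
    exact h.mul_right _
  · intro h
    rcases hp.dvd_or_dvd h with h1 | h1
    · exact h1
    · rcases hp.dvd_or_dvd h1 with h2 | h2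
      · have h3 : ((p : ℕ) : ℤ) ∣ 2 := by
          have e4 : (4 : ℤ) = 2 ^ 2 := by norm_num
          rw [e4] at h2
          exact hp.dvd_of_dvd_pow h2
        exact (h3.trans (by norm_num : (2 : ℤ) ∣ 6)).mul_right _
      · exact (hp.dvd_of_dvd_pow h2).mul_left _

open Pool.Agent.X278.AV Pool.Agent.X278.OP in
theorem pointsZ_eq (A : ℤ) (p : ℕ) : pointsZ A p = ptsQ A 0 p := by
  unfold pointsZ ptsQ
  simp only [Int.cast_zero, add_zero]

open Pool.Agent.X278.AV Pool.Agent.X278.OP in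
theorem termZ_eq (A : ℤ) (γ T : ℝ) (p : Nat.Primes) :
    termZ A γ T p = ((ff (A : ZMod p) ((0 : ℤ) : ZMod p) : ℝ) : ℂ) * Wt γ (Real.log (p : ℕ) / T) := by
  unfold termZ ff
  by_cases h : GoodZ A p
  · have h' : ¬ ((6 : ZMod p) * (4 * (A : ZMod p) ^ 3 + 27 * ((0 : ℤ) : ZMod p) ^ 2) = 0) := (goodZ_iff A p).1 h
    rw [if_pos h, if_neg h', ZMod.card, pointsZ_eq]
    unfold Wt Pool.Agent.W189.ML.om
    rw [Complex.ofReal_inv, ← div_eq_mul_inv]
    rfl
  · have h' : (6 : ZMod p) * (4 * (A : ZMod p) ^ 3 + 27 * ((0 : ℤ) : ZMod p) ^ 2) = 0 := by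
      by_contra h2
      exact h ((goodZ_iff A p).2 h2)
    rw [if_neg h, if_pos h', Complex.ofReal_zero, zero_mul]

open Pool.Agent.X287.CR Pool.Agent.X278.AV Pool.Agent.X278.OP in
/-- the curves `y² = x³ + A x`, unconditional -/
theorem uncond (A : ℤ) (hA : A ≠ 0) :
    ∃ L : ℂ → ℂ, Differentiable ℂ L ∧ IsLSeriesZ A L ∧ ∀ γ : ℝ, Real.pi / 2 < γ →
      (∀ T : ℝ, 0 < T → Summable fun p => ‖termZ A γ T p‖) ∧
      ∃ (m : ℕ) (ρ : ℂ), analyticOrderAt L 1 = m ∧ meromorphicTrailingCoeffAt L 1 = Complex.exp ρ ∧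
        (fun T : ℝ => SZ A γ T - (m * (Real.log T - Lambda γ) - ρ + 1 / 2 * Real.log 2)) =O[atTop]
          (fun T : ℝ => 1 / T) ∧
        Tendsto (fun T : ℝ => PZ A γ T / (T : ℂ) ^ m) atTop
          (𝓝 (((√2 : ℝ) : ℂ) * Complex.exp (-(m * Lambda γ)) / meromorphicTrailingCoeffAt L 1)) ∧
        (∀ r : ℕ, m = r ↔ ∃ C : ℂ, C ≠ 0 ∧ Tendsto (fun T : ℝ => PZ A γ T / (T : ℂ) ^ r) atTop (𝓝 C)) ∧
        (∀ (r : ℕ) (B : ℂ), B ≠ 0 → ((m = r ∧ meromorphicTrailingCoeffAt L 1 = B) ↔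
          Tendsto (fun T : ℝ => PZ A γ T / (T : ℂ) ^ r) atTop
            (𝓝 (((√2 : ℝ) : ℂ) * Complex.exp (-(r * Lambda γ)) / B)))) ∧
        -- the form of Q1
        (analyticOrderAt L 1 = (rankZ A : ℕ∞) ↔ ∃ C : ℂ, C ≠ 0 ∧
          Tendsto (fun T : ℝ => PZ A γ T / (T : ℂ) ^ (rankZ A)) atTop (𝓝 C)) := by
  classical
  obtain ⟨L, hL, hLs, hlaw⟩ := RQ.law hA
  refine ⟨L, hL, fun s hs => ?_, fun γ hγ => ?_⟩
  · refine (hLs s hs).congr_fun fun p => ?_
    unfold efQ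
    by_cases h : GoodZ A p
    · rw [if_pos h, if_pos ((goodZ_iff A p).1 h), pointsZ_eq]
    · rw [if_neg h, if_neg (fun h' => h ((goodZ_iff A p).2 h'))]
  · obtain ⟨hs, m, ρ, h1, h2, hLw⟩ := hlaw γ hγ
    have hS : SQ A 0 γ = SZ A γ := by
      funext T
      unfold SQ SZ
      exact tsum_congr fun p => (termZ_eq A γ T p).symm
    rw [hS] at hLw
    have hr : ∀ r : ℕ, m = r ↔ ∃ C : ℂ, C ≠ 0 ∧
        Tendsto (fun T : ℝ => PZ A γ T / (T : ℂ) ^ r) atTop (𝓝 C) := fun r => by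
      have h4 := asy_lim_iff hLw (r : ℤ)
      simp only [zpow_natCast] at h4
      rw [Nat.cast_inj] at h4
      exact h4
    have h2n : ((√2 : ℝ) : ℂ) = Complex.exp ((1 : ℤ) / 2 * Real.log 2) := by
      have h5 : √2 = Real.exp (1 / 2 * Real.log 2) := by
        rw [Real.sqrt_eq_rpow, Real.rpow_def_of_pos (by norm_num)]
        congr 1
        ring
      rw [h5]
      push_cast
      rfl
    have h2n0 : ((√2 : ℝ) : ℂ) ≠ 0 := by rw [h2n]; exact Complex.exp_ne_zero _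
    have hlead : ∀ (r : ℕ) (B : ℂ), B ≠ 0 → ((m = r ∧ meromorphicTrailingCoeffAt L 1 = B) ↔
          Tendsto (fun T : ℝ => PZ A γ T / (T : ℂ) ^ r) atTop
            (𝓝 (((√2 : ℝ) : ℂ) * Complex.exp (-(r * Lambda γ)) / B))) := by
      intro r B hB
      have h4 := hLw.lead_iff (r : ℤ) (B := B / ((√2 : ℝ) : ℂ)) (div_ne_zero hB h2n0)
      have h5 : Complex.exp (-((r : ℤ) * Pool.Agent.W187.UR.Lam γ)) / (B / ((√2 : ℝ) : ℂ)) =
          ((√2 : ℝ) : ℂ) * Complex.exp (-(r * Lambda γ)) / B := by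
        have e0 : Pool.Agent.W187.UR.Lam γ = Lambda γ := rfl
        rw [e0]
        push_cast
        field_simp
      have h6 : (Complex.exp (ρ - (1 : ℤ) / 2 * Real.log 2) = B / ((√2 : ℝ) : ℂ)) ↔
          meromorphicTrailingCoeffAt L 1 = B := by
        rw [Complex.exp_sub, ← h2n, h2, div_left_inj' h2n0]
      rw [h5, h6, Nat.cast_inj] at h4
      simp only [zpow_natCast] at h4
      exact h4
    refine ⟨fun T hT => ?_, m, ρ, h1, h2, ?_, ?_, hr, hlead, ?_⟩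
    · refine (hs T hT).congr fun p => ?_
      rw [termZ_eq]
    · unfold Asy at hLw
      refine hLw.congr_left fun T => ?_
      have e0 : Pool.Agent.W187.UR.Lam γ = Lambda γ := rfl
      rw [e0]
      push_cast
      ring
    · exact (hlead m _ (by rw [h2]; exact Complex.exp_ne_zero _)).1 ⟨rfl, rfl⟩
    · rw [h1, ← hr (rankZ A)]
      exact_mod_cast Iff.rfl

/-- **The original product of Birch and Swinnerton-Dyer with a rotated weight: any number field; unconditional results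
for the curves `y² = x³ + A x` over `ℚ`.** -/
theorem result :
    -- I. any number field
    (∀ (K : Type) [Field K] [NumberField K] (a b : 𝓞 K) (F : ℂ → ℂ), IsLSeries a b F →
      (∀ x : ℝ, 1 ≤ x → x ≤ 3 / 2 → MeromorphicAt F (x : ℂ)) → ∀ γ : ℝ, Real.pi / 2 < γ →
        -- absolute convergence
        (∀ T : ℝ, 0 < T → Summable fun v => ‖term a b γ T v‖) ∧
        -- the order and the leading coefficient, `l = exp(ρ)`
        ∃ (m : ℤ) (ρ : ℂ), meromorphicOrderAt F 1 = m ∧ meromorphicTrailingCoeffAt F 1 = Complex.exp ρ ∧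
          -- A. the order and the growth of the product
          (∃ c C : ℝ, 0 < c ∧ ∀ᶠ T : ℝ in atTop, c * T ^ m ≤ ‖P a b γ T‖ ∧ ‖P a b γ T‖ ≤ C * T ^ m) ∧
          (∀ r : ℤ, m = r ↔ Tendsto (fun T : ℝ => (S a b γ T).re / Real.log T) atTop (𝓝 (r : ℝ))) ∧
          (∀ r : ℤ, r ≤ m ↔ ∃ c : ℝ, 0 < c ∧ ∀ᶠ T : ℝ in atTop, c * T ^ r ≤ ‖P a b γ T‖) ∧
          (∀ r : ℤ, m ≤ r ↔ ∃ C : ℝ, ∀ᶠ T : ℝ in atTop, ‖P a b γ T‖ ≤ C * T ^ r) ∧
          -- B. the asymptotic formula and the constant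
          ∀ F₂ : ℂ → ℂ, IsSquareSeries a b F₂ → MeromorphicAt F₂ 2 →
            ∃ n : ℤ, meromorphicOrderAt F₂ 2 = n ∧
              (fun T : ℝ => S a b γ T - (m * (Real.log T - Lambda γ) - ρ + n / 2 * Real.log 2)) =O[atTop]
                (fun T : ℝ => 1 / T) ∧
              (∀ r : ℤ, m = r ↔ ∃ A : ℂ, A ≠ 0 ∧
                Tendsto (fun T : ℝ => P a b γ T / (T : ℂ) ^ r) atTop (𝓝 A)) ∧
              (∀ (r : ℤ) (B : ℂ), B ≠ 0 → ((m = r ∧ meromorphicTrailingCoeffAt F 1 = B) ↔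
                Tendsto (fun T : ℝ => P a b γ T / (T : ℂ) ^ r) atTop
                  (𝓝 (((√2 : ℝ) : ℂ) ^ n * Complex.exp (-(r * Lambda γ)) / B)))) ∧
              -- the form of Q1
              (meromorphicOrderAt F 1 = ((rank a b : ℤ) : WithTop ℤ) ↔ ∃ A : ℂ, A ≠ 0 ∧
                Tendsto (fun T : ℝ => P a b γ T / (T : ℂ) ^ (rank a b)) atTop (𝓝 A))) ∧
    -- II. the curves `y² = x³ + A x` over `ℚ`, unconditional
    (∀ A : ℤ, A ≠ 0 →
      ∃ L : ℂ → ℂ, Differentiable ℂ L ∧ IsLSeriesZ A L ∧ ∀ γ : ℝ, Real.pi / 2 < γ →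
        (∀ T : ℝ, 0 < T → Summable fun p => ‖termZ A γ T p‖) ∧
        ∃ (m : ℕ) (ρ : ℂ), analyticOrderAt L 1 = m ∧ meromorphicTrailingCoeffAt L 1 = Complex.exp ρ ∧
          (fun T : ℝ => SZ A γ T - (m * (Real.log T - Lambda γ) - ρ + 1 / 2 * Real.log 2)) =O[atTop]
            (fun T : ℝ => 1 / T) ∧
          Tendsto (fun T : ℝ => PZ A γ T / (T : ℂ) ^ m) atTop
            (𝓝 (((√2 : ℝ) : ℂ) * Complex.exp (-(m * Lambda γ)) / meromorphicTrailingCoeffAt L 1)) ∧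
          (∀ r : ℕ, m = r ↔ ∃ C : ℂ, C ≠ 0 ∧ Tendsto (fun T : ℝ => PZ A γ T / (T : ℂ) ^ r) atTop (𝓝 C)) ∧
          (∀ (r : ℕ) (B : ℂ), B ≠ 0 → ((m = r ∧ meromorphicTrailingCoeffAt L 1 = B) ↔
            Tendsto (fun T : ℝ => PZ A γ T / (T : ℂ) ^ r) atTop
              (𝓝 (((√2 : ℝ) : ℂ) * Complex.exp (-(r * Lambda γ)) / B)))) ∧
          -- the form of Q1
          (analyticOrderAt L 1 = (rankZ A : ℕ∞) ↔ ∃ C : ℂ, C ≠ 0 ∧
            Tendsto (fun T : ℝ => PZ A γ T / (T : ℂ) ^ (rankZ A)) atTop (𝓝 C))) :=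
  ⟨fun K _ _ a b F hF hFm γ hγ => general a b F hF hFm γ hγ, uncond⟩

end Pool.Agent.Results.MP_3283e1_nt.RotatedOriginalProduct
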